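import Pool.Agent.H.MP_51fc0b_lc.Defs
import Pool.Agent.Lib.helper22.CXEtr

namespace Pool.Agent.H.MP_51fc0b_lc

open Pool.Agent.Lib.CX Pool.Agent.Lib.ER Finset

@[fun_prop] theorem pt_inr {α : Type} [Enc α] {f : α → ℕ} (h : PT f) : PT fun a => (Sum.inr (f a) : ℚ ⊕ ℕ) :=
  (PT.pair (PT.const true) h).cast fun _ => rfl

theorem rank_iff {n r : ℕ} (hr : r ≤ n) (F : ℕ → ℕ → ℝ) (h : ∀ i < r, ∀ j < r, F i j = if i = j then 1 else 0) :
    (Matrix.of fun i j : Fin n => F i j).rank ≤ r ↔
      ∀ i < n, ∀ j < n, r ≤ i → r ≤ j → F i j = ∑ t ∈ range r, F i t * F t j := by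
  constructor
  · intro H i hi j hj _ _
    have := (Matrix.rank_submatrix_le (Matrix.of fun i j : Fin n => F i j)
      (Sum.elim (Fin.castLE hr) fun _ : Unit => ⟨i, hi⟩) (Sum.elim (Fin.castLE hr) fun _ : Unit => ⟨j, hj⟩)).trans H
    have e : (Matrix.of fun i j : Fin n => F i j).submatrix (Sum.elim (Fin.castLE hr) fun _ : Unit => ⟨i, hi⟩)
        (Sum.elim (Fin.castLE hr) fun _ : Unit => ⟨j, hj⟩) = Matrix.fromBlocks 1 (Matrix.of fun (t : Fin r) _ => F t j)
          (Matrix.of fun _ (t : Fin r) => F i t) (Matrix.of fun _ _ => F i j) := by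
      ext (a | a) (b | b) <;> simp [h, Matrix.one_apply, Fin.ext_iff]
    rw [e] at this
    by_contra c
    rw [Matrix.rank_of_det_ne_zero] at this
    · simp at this
    · rw [Matrix.det_fromBlocks_one₁₁, Matrix.det_unique]
      simp only [Matrix.sub_apply, Matrix.of_apply, Matrix.mul_apply]
      rw [Fin.sum_univ_eq_sum_range (fun t => F i t * F t j)]
      exact sub_ne_zero.2 c
  · intro H
    have e : (Matrix.of fun i j : Fin n => F i j) =
        (Matrix.of fun (i : Fin n) (t : Fin r) => F i t) * Matrix.of fun (t : Fin r) (j : Fin n) => F t j := by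
      ext i j
      simp only [Matrix.of_apply, Matrix.mul_apply]
      rw [Fin.sum_univ_eq_sum_range (fun t => F i t * F t j)]
      by_cases a : i.1 < r
      · rw [sum_congr rfl fun t ht => by rw [h i a t (mem_range.1 ht)]]
        simp [a]
      by_cases b : j.1 < r
      · rw [sum_congr rfl fun t ht => by rw [h t (mem_range.1 ht) j b]]
        simp [b]
      exact H i i.2 j j.2 (by omega) (by omega)
    rw [e]
    exact (Matrix.rank_mul_le_left _ _).trans (Matrix.rank_le_width _)

def vr (v : ℕ) : ℚ ⊕ ℕ := if v = 0 then .inl 0 else if v = 1 then .inl 1 else .inr v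

def ent (r : ℕ) (a : List Unit × List Q4) (i j : ℕ) : ℚ ⊕ ℕ :=
  if i < r then (if j < r then (if i = j then .inl 1 else .inl 0) else if i = 0 then vr (a.2.getD (j - r) (0, 0, 0, 0)).2.1
    else if i = 1 then vr (a.2.getD (j - r) (0, 0, 0, 0)).2.2.1 else .inl 0)
  else if j < r then (if j = 0 then vr (a.2.getD (i - r) (0, 0, 0, 0)).1 else if j = 1 then .inl 1 else .inl 0)
  else if i = j then vr (a.2.getD (i - r) (0, 0, 0, 0)).2.2.2 else .inr (a.1.length + Nat.pair (i - r) (j - r))

def tab (r : ℕ) (a : List Unit × List Q4) : List (List (ℚ ⊕ ℕ)) :=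
  (List.range (r + a.2.length)).map fun i => (List.range (r + a.2.length)).map fun j => ent r a i j

def red (r : ℕ) (a : List Unit × List Q4) : VM := ⟨tab r a, by simp [tab]⟩

theorem pt_red (r) : PT (red r) := PT.subtype (by unfold tab ent vr; fun_prop) _

def ev (x : ℕ → ℝ) (e : ℚ ⊕ ℕ) : ℝ := e.elim (fun q : ℚ => (q : ℝ)) x

theorem red_at (r a x) : (red r a).at x = Matrix.of fun i j : Fin (red r a).1.length => ev x (ent r a i j) := by
  ext i j
  simp [VM.at, red, tab, ev]
  rfl

theorem sum2 {r} (hr : 2 ≤ r) (a b c : ℝ) (f g : ℕ → ℝ) (hf : ∀ t < r, f t = if t = 0 then a else if t = 1 then 1 else 0)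
    (hg : ∀ t < r, g t = if t = 0 then b else if t = 1 then c else 0) : ∑ t ∈ range r, f t * g t = a * b + c := by
  obtain ⟨k, rfl⟩ := Nat.exists_eq_add_of_le' hr
  rw [sum_range_succ', sum_range_succ', sum_eq_zero fun t ht => by
    rw [hf _ (by have := mem_range.1 ht; omega)]; simp, hf 0 (by omega), hf 1 (by omega), hg 0 (by omega),
    hg 1 (by omega)]
  simp [add_comm]

theorem red_iff {r} (hr : 2 ≤ r) (N : List Unit) (E : List Q4) (h3 : 3 ≤ N.length) (hE : ∀ e ∈ E, Q4.lt N.length e) :
    (∃ y, Sat E y) ↔ ∃ x, ((red r (N, E)).at x).rank ≤ r := by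
  have hn : (red r (N, E)).1.length = r + E.length := by simp [red, tab]
  have key : ∀ x, ((red r (N, E)).at x).rank ≤ r ↔ ∀ i < E.length, ∀ j < E.length,
      ev x (vr (E.getD i (0, 0, 0, 0)).1) * ev x (vr (E.getD j (0, 0, 0, 0)).2.1) + ev x (vr (E.getD j (0, 0, 0, 0)).2.2.1) =
      if i = j then ev x (vr (E.getD i (0, 0, 0, 0)).2.2.2) else x (N.length + Nat.pair i j) := fun x => by
    rw [red_at, rank_iff (by omega) (fun i j => ev x (ent r (N, E) i j)) fun i hi j hj => by
      simp only [ent, hi, hj, if_true]; split_ifs <;> simp [ev], hn]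
    have s : ∀ i j, ∑ t ∈ range r, ev x (ent r (N, E) (r + i) t) * ev x (ent r (N, E) t (r + j)) =
        ev x (vr (E.getD i (0, 0, 0, 0)).1) * ev x (vr (E.getD j (0, 0, 0, 0)).2.1) +
          ev x (vr (E.getD j (0, 0, 0, 0)).2.2.1) := fun i j =>
      sum2 hr _ _ _ _ _ (fun t ht => by
        simp only [ent, ht, if_true, show ¬r + i < r by omega, if_false, Nat.add_sub_cancel_left]
        split_ifs <;> simp [ev]) fun t ht => by
        simp only [ent, ht, if_true, show ¬r + j < r by omega, if_false, Nat.add_sub_cancel_left]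
        split_ifs <;> simp [ev]
    have d : ∀ i j, ev x (ent r (N, E) (r + i) (r + j)) =
        if i = j then ev x (vr (E.getD i (0, 0, 0, 0)).2.2.2) else x (N.length + Nat.pair i j) := fun i j => by
      simp only [ent, show ¬r + i < r by omega, show ¬r + j < r by omega, if_false, Nat.add_sub_cancel_left,
        Nat.add_right_inj]
      split_ifs <;> simp [ev]
    constructor
    · intro H i hi j hj
      rw [← s, ← d, H (r + i) (by omega) (r + j) (by omega) (by omega) (by omega)]
    · intro H i hi j hj a b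
      obtain ⟨i, rfl⟩ := Nat.exists_eq_add_of_le a
      obtain ⟨j, rfl⟩ := Nat.exists_eq_add_of_le b
      rw [s, d, H i (by omega) j (by omega)]
  simp only [key]
  have m : ∀ i < E.length, E.getD i (0, 0, 0, 0) ∈ E := fun i hi => by simp [hi]
  constructor
  · rintro ⟨y, h0, h1, h⟩
    let x : ℕ → ℝ := fun v => if v < N.length then y v else
      y (E.getD (v - N.length).unpair.1 (0, 0, 0, 0)).1 * y (E.getD (v - N.length).unpair.2 (0, 0, 0, 0)).2.1 +
        y (E.getD (v - N.length).unpair.2 (0, 0, 0, 0)).2.2.1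
    have e : ∀ v < N.length, ev x (vr v) = y v := fun v hv => by
      unfold vr; split_ifs <;> simp_all [ev, x]
    refine ⟨x, fun i hi j hj => ?_⟩
    obtain ⟨a1, a2, a3, a4⟩ := hE _ (m i hi)
    obtain ⟨b1, b2, b3, b4⟩ := hE _ (m j hj)
    rw [e _ a1, e _ b2, e _ b3, e _ a4]
    split_ifs with c
    · subst c; exact h _ (m i hi)
    · simp [x]
  · rintro ⟨x, h⟩
    refine ⟨fun v => ev x (vr v), by simp [vr, ev], by simp [vr, ev], fun e he => ?_⟩
    obtain ⟨i, hi, rfl⟩ := List.getElem_of_mem he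
    simpa [hi, Q4.ok] using h i hi i hi

end Pool.Agent.H.MP_51fc0b_lc
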