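import Pool.Agent.Lib.lead.CXRat

namespace Pool.Agent.H.MP_51fc0b_lc

open Pool.Agent.Lib.CX

/-- an entry is a rational constant or the index of a variable; it is encoded with a leading bit -/
instance : Enc (ℚ ⊕ ℕ) :=
  ⟨fun e => e.elim (fun q => Enc.tr (false, q)) fun i => Enc.tr (true, i), fun a b h => by
    cases a <;> cases b <;> simp only [Sum.elim_inl, Sum.elim_inr] at h
    · cases Enc.inj h; rfl
    · injection h with h; cases h
    · injection h with h; cases h
    · cases Enc.inj h; rfl⟩

/-- variable matrices: square arrays of entries, listed row by row -/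
abbrev VM := {M : List (List (ℚ ⊕ ℕ)) // ∀ w ∈ M, w.length = M.length}

/-- the real matrix obtained by giving variable `v` the value `x v` -/
def VM.at (M : VM) (x : ℕ → ℝ) : Matrix (Fin M.1.length) (Fin M.1.length) ℝ :=
  fun i j => ((M.1[i.1])[j.1]'(j.2.trans_eq (M.2 _ (List.getElem_mem _)).symm)).elim (fun q : ℚ => (q : ℝ)) x

end Pool.Agent.H.MP_51fc0b_lc
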